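import Pool.Agent.D0H11.GM.Stm

/-! # Project GM (helper11): assembly -/

set_option autoImplicit false

namespace Pool.Agent.D0H11.GM

open Finset MeasureTheory Filter

/-- the parameters for which the number of the quadruple is prime -/
def Ps (q : Fin 4 → ℕ) : Set (ℝ × ℝ) := {a | PP a q}

theorem LL_cont (q : Fin 4 → ℕ) : Continuous fun a : ℝ × ℝ => LL a q := by
  unfold LL
  fun_prop

theorem Ps_meas (q : Fin 4 → ℕ) : MeasurableSet (Ps q) := by
  have h : Measurable fun a : ℝ × ℝ => ⌊LL a q⌋₊ := Nat.measurable_floor.comp (LL_cont q).measurable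
  have e : Ps q = (fun a : ℝ × ℝ => ⌊LL a q⌋₊) ⁻¹' {m : ℕ | (m + 1).Prime} := rfl
  rw [e]
  exact h (MeasurableSet.of_discrete)

/-- the indicator -/
noncomputable def ind (q : Fin 4 → ℕ) (a : ℝ × ℝ) : ℝ := (Ps q).indicator (fun _ => (1 : ℝ)) a

theorem ind_meas (q : Fin 4 → ℕ) : Measurable (ind q) := measurable_const.indicator (Ps_meas q)

theorem ind_nonneg (q : Fin 4 → ℕ) (a : ℝ × ℝ) : 0 ≤ ind q a := by
  unfold ind
  exact Set.indicator_nonneg (fun _ _ => zero_le_one) a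

theorem ind_le (q : Fin 4 → ℕ) (a : ℝ × ℝ) : ind q a ≤ 1 := by
  unfold ind
  exact Set.indicator_le_self' (fun _ _ => zero_le_one) a

theorem ind_one (q : Fin 4 → ℕ) (a : ℝ × ℝ) (h : PP a q) : ind q a = 1 := by
  unfold ind
  exact Set.indicator_of_mem (s := Ps q) h _

theorem ind_zero (q : Fin 4 → ℕ) (a : ℝ × ℝ) (h : ¬ PP a q) : ind q a = 0 := by
  unfold ind
  exact Set.indicator_of_notMem (s := Ps q) h _

/-- the number of the quadruples of `n` with a prime number -/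
noncomputable def SS (M n : ℕ) (a : ℝ × ℝ) : ℝ := ∑ q ∈ (QQ M).filter (fun q => nn q = n), ind q a

theorem nn_lt {M : ℕ} {q : Fin 4 → ℕ} (hq : q ∈ QQ M) : nn q < 16 * M ^ 2 := by
  unfold QQ at hq
  rw [mem_filter, Fintype.mem_piFinset] at hq
  have h := hq.1
  have h0 := mem_Ico.1 (h 0)
  have h1 := mem_Ico.1 (h 1)
  have h2 := mem_Ico.1 (h 2)
  have h3 := mem_Ico.1 (h 3)
  have k : ∀ x : ℕ, M ≤ x → x < 2 * M → x ^ 2 < 4 * M ^ 2 := by
    intro x _ hx
    nlinarith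
  have k0 := k _ h0.1 h0.2
  have k1 := k _ h1.1 h1.2
  have k2 := k _ h2.1 h2.2
  have k3 := k _ h3.1 h3.2
  unfold nn
  omega

theorem sum1 (M : ℕ) (a : ℝ × ℝ) : ∑ n ∈ range (16 * M ^ 2), SS M n a = ∑ q ∈ QQ M, ind q a := by
  unfold SS
  exact Finset.sum_fiberwise_of_maps_to (fun q hq => mem_range.2 (nn_lt hq)) _

theorem sum2 (M : ℕ) (a : ℝ × ℝ) : ∑ n ∈ range (16 * M ^ 2), SS M n a ^ 2 =
    ∑ p ∈ (QQ M ×ˢ QQ M).filter (fun p => nn p.1 = nn p.2), ind p.1 a * ind p.2 a := by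
  have e : ∀ n, SS M n a ^ 2 = ∑ p ∈ ((QQ M ×ˢ QQ M).filter (fun p => nn p.1 = nn p.2)).filter
      (fun p => nn p.1 = n), ind p.1 a * ind p.2 a := by
    intro n
    unfold SS
    rw [sq, Finset.sum_mul_sum, ← Finset.sum_product']
    refine Finset.sum_congr ?_ fun _ _ => rfl
    ext p
    simp only [mem_filter, mem_product]
    constructor
    · rintro ⟨⟨h1, h2⟩, h3, h4⟩
      exact ⟨⟨⟨h1, h3⟩, by rw [h2, h4]⟩, h2⟩
    · rintro ⟨⟨⟨h1, h2⟩, h3⟩, h4⟩
      exact ⟨⟨h1, h4⟩, h2, by rw [← h3, h4]⟩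
  simp only [e]
  exact Finset.sum_fiberwise_of_maps_to (fun p hp => mem_range.2 (nn_lt (mem_product.1 (mem_filter.1 hp).1).1)) _

theorem SS_meas (M n : ℕ) : Measurable (SS M n) := by
  unfold SS
  exact Finset.measurable_sum _ fun q _ => ind_meas q

theorem SS_bd (M n : ℕ) (a : ℝ × ℝ) : 0 ≤ SS M n a ∧ SS M n a ≤ (QQ M).card := by
  unfold SS
  refine ⟨Finset.sum_nonneg fun q _ => ind_nonneg q a, ?_⟩
  refine (Finset.sum_le_sum_of_subset_of_nonneg (Finset.filter_subset _ _) fun q _ _ => ind_nonneg q a).trans ?_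
  calc ∑ q ∈ QQ M, ind q a ≤ ∑ _q ∈ QQ M, (1 : ℝ) := Finset.sum_le_sum fun q _ => ind_le q a
    _ = _ := by rw [Finset.sum_const, nsmul_eq_mul, mul_one]

theorem int1 (J : Set (ℝ × ℝ)) (q : Fin 4 → ℕ) : ∫ a in J, ind q a = (volume {a : ℝ × ℝ | a ∈ J ∧ PP a q}).toReal := by
  have e : ind q = (Ps q).indicator 1 := rfl
  rw [e, integral_indicator_one (Ps_meas q), measureReal_def, Measure.restrict_apply (Ps_meas q)]
  congr 2
  ext a
  simp only [Ps, Set.mem_inter_iff, Set.mem_ofPred_eq]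
  exact and_comm

theorem int2 (J : Set (ℝ × ℝ)) (q q' : Fin 4 → ℕ) :
    ∫ a in J, ind q a * ind q' a = (volume {a : ℝ × ℝ | a ∈ J ∧ PP a q ∧ PP a q'}).toReal := by
  have e : (fun a => ind q a * ind q' a) = (Ps q ∩ Ps q').indicator 1 := by
    funext a
    by_cases h1 : PP a q
    · by_cases h2 : PP a q'
      · rw [ind_one _ _ h1, ind_one _ _ h2, mul_one, Set.indicator_of_mem (show a ∈ Ps q ∩ Ps q' from ⟨h1, h2⟩)]
        rfl
      · rw [ind_zero _ _ h2, mul_zero, Set.indicator_of_notMem (show a ∉ Ps q ∩ Ps q' from fun h => h2 h.2)]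
    · rw [ind_zero _ _ h1, zero_mul, Set.indicator_of_notMem (show a ∉ Ps q ∩ Ps q' from fun h => h1 h.1)]
  have hm := (Ps_meas q).inter (Ps_meas q')
  rw [e, integral_indicator_one hm, measureReal_def, Measure.restrict_apply hm]
  congr 2
  ext a
  simp only [Ps, Set.mem_inter_iff, Set.mem_ofPred_eq]
  tauto

theorem vol_ball (c : ℝ × ℝ) (r : ℝ) (hr : 0 < r) : volume (Metric.closedBall c r) = ENNReal.ofReal (4 * r ^ 2) := by
  have e : Metric.closedBall c r = Metric.closedBall c.1 r ×ˢ Metric.closedBall c.2 r := by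
    rw [closedBall_prod_same]
  rw [e, Measure.volume_eq_prod, Measure.prod_prod, Real.volume_closedBall, Real.volume_closedBall,
    ← ENNReal.ofReal_mul (by positivity)]
  congr 1
  ring

theorem vol_ball' (c : ℝ × ℝ) (r : ℝ) (hr : 0 < r) : (volume (Metric.closedBall c r)).toReal = 4 * r ^ 2 := by
  rw [vol_ball c r hr, ENNReal.toReal_ofReal (by positivity)]

theorem ind_int (J : Set (ℝ × ℝ)) (hJ : volume J ≠ ⊤) (q : Fin 4 → ℕ) : IntegrableOn (ind q) J := by
  refine Measure.integrableOn_of_bounded hJ (ind_meas q).aestronglyMeasurable (M := 1) ?_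
  refine Filter.Eventually.of_forall fun a => ?_
  rw [Real.norm_eq_abs, abs_of_nonneg (ind_nonneg q a)]
  exact ind_le q a

theorem ind_int2 (J : Set (ℝ × ℝ)) (hJ : volume J ≠ ⊤) (q q' : Fin 4 → ℕ) :
    IntegrableOn (fun a => ind q a * ind q' a) J := by
  refine Measure.integrableOn_of_bounded hJ ((ind_meas q).mul (ind_meas q')).aestronglyMeasurable (M := 1) ?_
  refine Filter.Eventually.of_forall fun a => ?_
  rw [Real.norm_eq_abs, abs_of_nonneg (mul_nonneg (ind_nonneg q a) (ind_nonneg q' a))]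
  exact mul_le_one₀ (ind_le q a) (ind_nonneg q' a) (ind_le q' a)

/-- the first moment -/
theorem first (hC : S_CNT) (hO : S_ONE) : ∃ c : ℝ, 0 < c ∧ ∀ (x : ℝ × ℝ) (r : ℝ), Sq x r → ∀ᶠ M : ℕ in atTop,
    c * (M : ℝ) ^ 3 * (volume (Metric.closedBall x r)).toReal ≤
      ∫ a in Metric.closedBall x r, ∑ n ∈ range (16 * M ^ 2), SS M n a := by
  obtain ⟨C, E, hC0, h1, -, -⟩ := hC
  obtain ⟨c₀, hc₀, h2⟩ := hO
  refine ⟨c₀ / 16, by positivity, fun x r hx => ?_⟩
  filter_upwards [h2 x r hx, eventually_ge_atTop 2] with M hM hM2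
  have hr := hx.1
  have hM0 : (0 : ℝ) < M := by
    have : 0 < M := by omega
    exact_mod_cast this
  have hfin : volume (Metric.closedBall x r) ≠ ⊤ := by
    rw [vol_ball x r hr]
    exact ENNReal.ofReal_ne_top
  simp only [sum1]
  rw [integral_finsetSum _ fun q _ => ind_int _ hfin q, vol_ball' x r hr]
  have h3 : ∀ q ∈ QQ M, c₀ * r ^ 2 / M ≤ ∫ a in Metric.closedBall x r, ind q a := by
    intro q hq
    rw [int1]
    have h4 := hM q hq
    have h5 : volume {a : ℝ × ℝ | a ∈ Metric.closedBall x r ∧ PP a q} ≠ ⊤ :=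
      ne_top_of_le_ne_top hfin (measure_mono fun a ha => ha.1)
    rw [← ENNReal.toReal_ofReal (show 0 ≤ c₀ * r ^ 2 / M by positivity)]
    exact ENNReal.toReal_mono h5 h4
  have h6 : (QQ M).card * (c₀ * r ^ 2 / M) ≤ ∑ q ∈ QQ M, ∫ a in Metric.closedBall x r, ind q a := by
    rw [← nsmul_eq_mul]
    exact Finset.card_nsmul_le_sum _ _ _ h3
  refine le_trans ?_ h6
  have h7 := h1 M hM2
  calc c₀ / 16 * (M : ℝ) ^ 3 * (4 * r ^ 2) = (M : ℝ) ^ 4 / 4 * (c₀ * r ^ 2 / M) := by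
        field_simp
        ring
    _ ≤ _ := mul_le_mul_of_nonneg_right h7 (by positivity)

open Classical in
/-- the second moment -/
theorem second (hC : S_CNT) (hP : S_PU) (hS : S_SU) : ∃ C : ℝ, 0 < C ∧ ∀ (x : ℝ × ℝ) (r : ℝ), Sq x r → ∀ᶠ M : ℕ in atTop,
    ∫ a in Metric.closedBall x r, ∑ n ∈ range (16 * M ^ 2), SS M n a ^ 2 ≤
      C * (M : ℝ) ^ 4 * (volume (Metric.closedBall x r)).toReal := by
  obtain ⟨C3, E, hC3, -, h2, h3⟩ := hC
  obtain ⟨C1, hC1, hP⟩ := hP
  obtain ⟨C2, hC2, hS⟩ := hS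
  refine ⟨(C1 * C3 + 2 * (C2 * C3)) / 4, by positivity, fun x r hx => ?_⟩
  have hlog : ∀ᶠ M : ℕ in atTop, 4 * Real.log (M : ℝ) ^ E ≤ Real.sqrt M / 2 := by
    have h4 : Tendsto (fun y : ℝ => Real.log y ^ E / Real.sqrt y) atTop (nhds 0) := by
      have h5 := (isLittleO_log_rpow_atTop (r := 1 / (2 * ((E : ℝ) + 1))) (by positivity))
      have h6 : (fun y : ℝ => Real.log y ^ E) =o[atTop] (fun y : ℝ => Real.sqrt y) := by
        have h7 : (fun y : ℝ => Real.log y ^ E) =o[atTop] (fun y : ℝ => y ^ (1 / 2 : ℝ)) := by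
          have := isLittleO_log_rpow_rpow_atTop (s := 1 / 2) (E : ℝ) (by norm_num)
          refine this.congr_left fun y => ?_
          rw [Real.rpow_natCast]
        refine h7.congr_right fun y => ?_
        rw [Real.sqrt_eq_rpow]
      exact h6.tendsto_div_nhds_zero
    have h8 := (h4.comp tendsto_natCast_atTop_atTop).eventually (gt_mem_nhds (show (0 : ℝ) < 1 / 8 by norm_num))
    filter_upwards [h8, eventually_ge_atTop 1] with M hM hM1
    have hs : 0 < Real.sqrt M := Real.sqrt_pos.2 (by exact_mod_cast hM1)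
    simp only [Function.comp] at hM
    rw [div_lt_iff₀ hs] at hM
    linarith
  filter_upwards [hP x r hx, hS x r hx, hlog, eventually_ge_atTop 2] with M g1 g2 g3 hM2
  have hr := hx.1
  have hM0 : (0 : ℝ) < M := by
    have : 0 < M := by omega
    exact_mod_cast this
  have hM1 : (1 : ℝ) ≤ M := by
    have : 1 ≤ M := by omega
    exact_mod_cast this
  have hfin : volume (Metric.closedBall x r) ≠ ⊤ := by
    rw [vol_ball x r hr]
    exact ENNReal.ofReal_ne_top
  simp only [sum2]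
  have e0 : ∫ a in Metric.closedBall x r, ∑ p ∈ (QQ M ×ˢ QQ M).filter (fun p => nn p.1 = nn p.2), ind p.1 a * ind p.2 a =
      ∑ p ∈ (QQ M ×ˢ QQ M).filter (fun p => nn p.1 = nn p.2), ∫ a in Metric.closedBall x r, ind p.1 a * ind p.2 a :=
    integral_finsetSum _ fun (p : (Fin 4 → ℕ) × (Fin 4 → ℕ)) _ => ind_int2 _ hfin p.1 p.2
  rw [e0, vol_ball' x r hr]
  simp only [int2]
  obtain ⟨κ, hκ⟩ : ∃ κ, κ = Nat.sqrt M + 1 := ⟨_, rfl⟩
  have hκ1 : Real.sqrt M ≤ κ := by
    rw [hκ]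
    have h4 : M < (Nat.sqrt M + 1) * (Nat.sqrt M + 1) := Nat.lt_succ_sqrt M
    rw [Real.sqrt_le_left (by positivity)]
    have : (M : ℝ) < (((Nat.sqrt M + 1) * (Nat.sqrt M + 1) : ℕ) : ℝ) := by exact_mod_cast h4
    push_cast at this ⊢
    nlinarith
  have hκ2 : (κ : ℝ) ≤ 2 * Real.sqrt M := by
    rw [hκ]
    have h4 : Nat.sqrt M * Nat.sqrt M ≤ M := Nat.sqrt_le M
    have h5 : (Nat.sqrt M : ℝ) ≤ Real.sqrt M := by
      apply Real.le_sqrt_of_sq_le
      have : ((Nat.sqrt M * Nat.sqrt M : ℕ) : ℝ) ≤ M := by exact_mod_cast h4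
      push_cast at this
      nlinarith
    have h6 : 1 ≤ Real.sqrt M := by
      apply Real.le_sqrt_of_sq_le
      linarith
    push_cast
    linarith
  have hκ0 : 1 ≤ κ := by omega
  -- the three kinds of pairs
  obtain ⟨vol, hvol⟩ : ∃ vol : (Fin 4 → ℕ) × (Fin 4 → ℕ) → ℝ, vol = fun p =>
    (volume {a : ℝ × ℝ | a ∈ Metric.closedBall x r ∧ PP a p.1 ∧ PP a p.2}).toReal := ⟨_, rfl⟩
  have hvol0 : ∀ p, 0 ≤ vol p := fun p => by
    rw [hvol]
    exact ENNReal.toReal_nonneg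
  obtain ⟨T, hT⟩ : ∃ T, T = (QQ M ×ˢ QQ M).filter (fun p => nn p.1 = nn p.2) := ⟨_, rfl⟩
  obtain ⟨T3, hT3⟩ : ∃ T3 : ℕ → Finset ((Fin 4 → ℕ) × (Fin 4 → ℕ)), T3 = fun k => (QQ M ×ˢ QQ M).filter
    fun p => nn p.1 = nn p.2 ∧ uu p.1 + vv p.2 = uu p.2 + vv p.1 ∧ uu p.2 < uu p.1 + k ∧ uu p.1 < uu p.2 + k := ⟨_, rfl⟩
  have hle : ∀ p ∈ T, vol p ≤ C1 * r ^ 2 / (M : ℝ) ^ 2 + (if p ∈ T3 (4 * M) then C2 * r ^ 2 / (M * κ) else 0) +
      (if p ∈ T3 κ then C2 * r ^ 2 / M else 0) := by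
    intro p hp
    rw [hT, mem_filter, mem_product] at hp
    obtain ⟨⟨hp1, hp2⟩, hpn⟩ := hp
    have t1 : 0 ≤ C1 * r ^ 2 / (M : ℝ) ^ 2 := by positivity
    have t2 : 0 ≤ C2 * r ^ 2 / (M * κ : ℝ) := by positivity
    have t3 : 0 ≤ C2 * r ^ 2 / (M : ℝ) := by positivity
    have i2 : 0 ≤ (if p ∈ T3 (4 * M) then C2 * r ^ 2 / (M * κ : ℝ) else 0) := by
      split_ifs
      · exact t2
      · exact le_rfl
    have i3 : 0 ≤ (if p ∈ T3 κ then C2 * r ^ 2 / (M : ℝ) else 0) := by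
      split_ifs
      · exact t3
      · exact le_rfl
    by_cases hd : uu p.1 + vv p.2 = uu p.2 + vv p.1
    · by_cases hk : uu p.2 < uu p.1 + κ ∧ uu p.1 < uu p.2 + κ
      · have hmem : p ∈ T3 κ := by
          rw [hT3]
          simp only [mem_filter, mem_product]
          exact ⟨⟨hp1, hp2⟩, hpn, hd, hk.1, hk.2⟩
        have h4 : vol p ≤ C2 * r ^ 2 / M := by
          rw [hvol]
          have h5 := (g2 p.1 hp1 p.2 hp2).2
          have h6 : volume {a : ℝ × ℝ | a ∈ Metric.closedBall x r ∧ PP a p.1 ∧ PP a p.2} ≤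
              ENNReal.ofReal (C2 * r ^ 2 / M) :=
            (measure_mono (show {a : ℝ × ℝ | a ∈ Metric.closedBall x r ∧ PP a p.1 ∧ PP a p.2} ⊆
              {a : ℝ × ℝ | a ∈ Metric.closedBall x r ∧ PP a p.1} from fun a ha => ⟨ha.1, ha.2.1⟩)).trans h5
          exact ENNReal.toReal_le_of_le_ofReal t3 h6
        rw [if_pos hmem]
        rw [if_pos hmem] at i3
        linarith
      · have hmem : p ∈ T3 (4 * M) := by
          rw [hT3]
          simp only [mem_filter, mem_product]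
          have b1 : ∀ q ∈ QQ M, uu q < 4 * M := by
            intro q hq
            unfold QQ at hq
            rw [mem_filter, Fintype.mem_piFinset] at hq
            have e0 := mem_Ico.1 (hq.1 0)
            have e1 := mem_Ico.1 (hq.1 1)
            unfold uu
            omega
          have b2 := b1 _ hp1
          have b3 := b1 _ hp2
          exact ⟨⟨hp1, hp2⟩, hpn, hd, by omega, by omega⟩
        have h4 : vol p ≤ C2 * r ^ 2 / (M * κ) := by
          rw [hvol]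
          rw [not_and_or, not_lt, not_lt] at hk
          rcases hk with hk | hk
          · have h5 := (g2 p.1 hp1 p.2 hp2).1 (uu p.2 - uu p.1) (by omega) (by omega) (by omega)
            have h7 : C2 * r ^ 2 / (M * ((uu p.2 - uu p.1 : ℕ) : ℝ)) ≤ C2 * r ^ 2 / (M * κ) := by
              apply div_le_div_of_nonneg_left (by positivity) (by positivity)
              apply mul_le_mul_of_nonneg_left _ hM0.le
              have : κ ≤ uu p.2 - uu p.1 := by omega
              exact_mod_cast this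
            exact (ENNReal.toReal_le_of_le_ofReal (by positivity) h5).trans h7
          · have h5 := (g2 p.2 hp2 p.1 hp1).1 (uu p.1 - uu p.2) (by omega) (by omega) (by omega)
            have h6 : {a : ℝ × ℝ | a ∈ Metric.closedBall x r ∧ PP a p.1 ∧ PP a p.2} =
                {a : ℝ × ℝ | a ∈ Metric.closedBall x r ∧ PP a p.2 ∧ PP a p.1} := by
              ext a
              simp only [Set.mem_ofPred_eq]
              tauto
            have h7 : C2 * r ^ 2 / (M * ((uu p.1 - uu p.2 : ℕ) : ℝ)) ≤ C2 * r ^ 2 / (M * κ) := by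
              apply div_le_div_of_nonneg_left (by positivity) (by positivity)
              apply mul_le_mul_of_nonneg_left _ hM0.le
              have : κ ≤ uu p.1 - uu p.2 := by omega
              exact_mod_cast this
            simp only [h6]
            exact (ENNReal.toReal_le_of_le_ofReal (by positivity) h5).trans h7
        rw [if_pos hmem]
        rw [if_pos hmem] at i2
        linarith
    · have h4 : vol p ≤ C1 * r ^ 2 / (M : ℝ) ^ 2 := by
        rw [hvol]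
        exact ENNReal.toReal_le_of_le_ofReal t1 (g1 p.1 hp1 p.2 hp2 hd)
      linarith
  have hsum : ∑ p ∈ T, vol p ≤ T.card * (C1 * r ^ 2 / (M : ℝ) ^ 2) + (T3 (4 * M)).card * (C2 * r ^ 2 / (M * κ)) +
      (T3 κ).card * (C2 * r ^ 2 / M) := by
    refine (Finset.sum_le_sum hle).trans ?_
    rw [Finset.sum_add_distrib, Finset.sum_add_distrib, Finset.sum_const, nsmul_eq_mul]
    have hsub : ∀ k, T3 k ⊆ T := by
      intro k p hp
      rw [hT3] at hp
      rw [hT]
      simp only [mem_filter] at hp ⊢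
      exact ⟨hp.1, hp.2.1⟩
    have hs : ∀ (k : ℕ) (y : ℝ), ∑ p ∈ T, (if p ∈ T3 k then y else 0) = (T3 k).card * y := by
      intro k y
      rw [Finset.sum_ite_mem, Finset.inter_eq_right.2 (hsub k), Finset.sum_const, nsmul_eq_mul]
    rw [hs, hs]
  have hTc : (T.card : ℝ) ≤ C3 * (M : ℝ) ^ 6 := by
    rw [hT]
    convert h2 M hM2
  have hT3c : ∀ k : ℕ, 1 ≤ k → ((T3 k).card : ℝ) ≤ C3 * k * (M : ℝ) ^ 4 * Real.log M ^ E := by
    intro k hk
    rw [hT3]
    convert h3 M k hM2 hk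
  have hL0 : 0 ≤ Real.log (M : ℝ) ^ E := by
    have := Real.log_natCast_nonneg M
    positivity
  have hsq0 : 0 < Real.sqrt M := Real.sqrt_pos.2 hM0
  have hsq : Real.sqrt M * Real.sqrt M = M := Real.mul_self_sqrt hM0.le
  have a1 : T.card * (C1 * r ^ 2 / (M : ℝ) ^ 2) ≤ C1 * C3 * r ^ 2 * (M : ℝ) ^ 4 := by
    calc T.card * (C1 * r ^ 2 / (M : ℝ) ^ 2) ≤ (C3 * (M : ℝ) ^ 6) * (C1 * r ^ 2 / (M : ℝ) ^ 2) :=
          mul_le_mul_of_nonneg_right hTc (by positivity)
      _ = _ := by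
          field_simp
  have a2 : (T3 (4 * M)).card * (C2 * r ^ 2 / (M * κ)) ≤ C2 * C3 * r ^ 2 * (M : ℝ) ^ 4 := by
    have h4 := hT3c (4 * M) (by omega)
    push_cast at h4
    calc (T3 (4 * M)).card * (C2 * r ^ 2 / (M * κ)) ≤
        (C3 * (4 * M) * (M : ℝ) ^ 4 * Real.log M ^ E) * (C2 * r ^ 2 / (M * κ)) :=
          mul_le_mul_of_nonneg_right h4 (by positivity)
      _ = C2 * C3 * r ^ 2 * (M : ℝ) ^ 4 * (4 * Real.log M ^ E / κ) := by
          have : (κ : ℝ) ≠ 0 := by positivity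
          field_simp
      _ ≤ C2 * C3 * r ^ 2 * (M : ℝ) ^ 4 * 1 := by
          refine mul_le_mul_of_nonneg_left ?_ (by positivity)
          rw [div_le_one (by positivity)]
          linarith
      _ = _ := mul_one _
  have a3 : (T3 κ).card * (C2 * r ^ 2 / M) ≤ C2 * C3 * r ^ 2 * (M : ℝ) ^ 4 := by
    have h4 := hT3c κ hκ0
    calc (T3 κ).card * (C2 * r ^ 2 / M) ≤ (C3 * κ * (M : ℝ) ^ 4 * Real.log M ^ E) * (C2 * r ^ 2 / M) :=
          mul_le_mul_of_nonneg_right h4 (by positivity)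
      _ = C2 * C3 * r ^ 2 * (M : ℝ) ^ 4 * (κ * Real.log M ^ E / M) := by
          field_simp
      _ ≤ C2 * C3 * r ^ 2 * (M : ℝ) ^ 4 * 1 := by
          refine mul_le_mul_of_nonneg_left ?_ (by positivity)
          rw [div_le_one (by positivity)]
          calc (κ : ℝ) * Real.log M ^ E ≤ (2 * Real.sqrt M) * (Real.sqrt M / 8) := by
                apply mul_le_mul hκ2 _ hL0 (by positivity)
                linarith
            _ = (Real.sqrt M * Real.sqrt M) / 4 := by ring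
            _ ≤ M := by
                rw [hsq]
                linarith
      _ = _ := mul_one _
  have hfinal : ∑ p ∈ T, vol p ≤ (C1 * C3 + 2 * (C2 * C3)) / 4 * (M : ℝ) ^ 4 * (4 * r ^ 2) := by
    refine hsum.trans ?_
    have : (C1 * C3 + 2 * (C2 * C3)) / 4 * (M : ℝ) ^ 4 * (4 * r ^ 2) = C1 * C3 * r ^ 2 * (M : ℝ) ^ 4 +
        C2 * C3 * r ^ 2 * (M : ℝ) ^ 4 + C2 * C3 * r ^ 2 * (M : ℝ) ^ 4 := by ring
    rw [this]
    linarith
  rw [hvol, hT] at hfinal
  exact hfinal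

end Pool.Agent.D0H11.GM
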