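import Pool.Agent.D0H11.GM.Asm

/-! # Project GM (helper11): the final theorem -/

set_option autoImplicit false

namespace Pool.Agent.D0H11.GM

open Finset MeasureTheory Filter

open Classical in
theorem main (hC : S_CNT) (hP : S_PU) (hS : S_SU) (hO : S_ONE) (hM : S_MOM) (hD : S_DENS) :
    ∃ c : ℝ, 0 < c ∧ ∀ᵐ a : ℝ × ℝ, 0 < a.1 → 0 < a.2 → ∃ᶠ N : ℕ in atTop, c * N ≤
      ((((range N).filter fun n => Odd n ∧ c * Real.sqrt N ≤ (({q : Fin 4 → ℕ | nn q = n ∧ PP a q}.ncard : ℕ) : ℝ)).card : ℕ) : ℝ) := by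
  obtain ⟨c, hc, hfirst⟩ := first hC hO
  obtain ⟨C, hC0, hsecond⟩ := second hC hP hS
  obtain ⟨c₁, hc₁, hmom⟩ := hM c C hc hC0
  obtain ⟨G, hG⟩ : ∃ G : ℕ → Set (ℝ × ℝ), G = fun M : ℕ => {a : ℝ × ℝ | c₁ * (M : ℝ) ^ 2 ≤
    ((((range (16 * M ^ 2)).filter fun n => c₁ * M ≤ SS M n a).card : ℕ) : ℝ)} := ⟨_, rfl⟩
  have hGm : ∀ M, MeasurableSet (G M) := by
    intro M
    rw [hG]
    have e : ∀ a : ℝ × ℝ, ((((range (16 * M ^ 2)).filter fun n => c₁ * M ≤ SS M n a).card : ℕ) : ℝ) =
        ∑ n ∈ range (16 * M ^ 2), if c₁ * M ≤ SS M n a then (1 : ℝ) else 0 := by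
      intro a
      rw [Finset.card_filter]
      push_cast
      rfl
    simp only [e]
    refine measurableSet_le measurable_const (Finset.measurable_sum _ fun n _ => ?_)
    exact Measurable.ite (measurableSet_le measurable_const (SS_meas M n)) measurable_const measurable_const
  have hae := hD G c₁ hc₁ hGm (fun x r hx => by
    filter_upwards [hfirst x r hx, hsecond x r hx, eventually_ge_atTop 1] with M h1 h2 h3
    have hr := hx.1
    have hfin : volume (Metric.closedBall x r) ≠ ⊤ := by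
      rw [vol_ball x r hr]
      exact ENNReal.ofReal_ne_top
    have h4 := hmom M (Metric.closedBall x r) (SS M) ((QQ M).card : ℝ) h3 Metric.isClosed_closedBall.measurableSet hfin
      (SS_meas M) (SS_bd M) h1 h2
    have h5 : {a : ℝ × ℝ | a ∈ Metric.closedBall x r ∧ c₁ * (M : ℝ) ^ 2 ≤
        ((((range (16 * M ^ 2)).filter fun n => c₁ * M ≤ SS M n a).card : ℕ) : ℝ)} = G M ∩ Metric.closedBall x r := by
      rw [hG]
      ext a
      simp only [Set.mem_ofPred_eq, Set.mem_inter_iff]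
      exact and_comm
    rw [h5] at h4
    have h6 : volume (G M ∩ Metric.closedBall x r) ≠ ⊤ :=
      ne_top_of_le_ne_top hfin (measure_mono Set.inter_subset_right)
    calc ENNReal.ofReal c₁ * volume (Metric.closedBall x r) =
          ENNReal.ofReal c₁ * ENNReal.ofReal (volume (Metric.closedBall x r)).toReal := by
            rw [ENNReal.ofReal_toReal hfin]
      _ = ENNReal.ofReal (c₁ * (volume (Metric.closedBall x r)).toReal) := by
            rw [← ENNReal.ofReal_mul hc₁.le]
      _ ≤ ENNReal.ofReal (volume (G M ∩ Metric.closedBall x r)).toReal := ENNReal.ofReal_le_ofReal h4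
      _ = _ := ENNReal.ofReal_toReal h6)
  refine ⟨c₁ / 16, by positivity, ?_⟩
  filter_upwards [hae] with a ha ha1 ha2
  have hfr := ha ha1 ha2
  rw [Filter.frequently_atTop] at hfr ⊢
  intro N₀
  obtain ⟨M, hM1, hM2⟩ := hfr (N₀ + 1)
  have hMpos : 1 ≤ M := by omega
  have hM0 : (0 : ℝ) < M := by exact_mod_cast hMpos
  refine ⟨16 * M ^ 2, by nlinarith, ?_⟩
  rw [hG] at hM2
  simp only [Set.mem_ofPred_eq] at hM2
  have e1 : c₁ / 16 * ((16 * M ^ 2 : ℕ) : ℝ) = c₁ * (M : ℝ) ^ 2 := by
    push_cast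
    ring
  rw [e1]
  refine hM2.trans ?_
  have hsub : (range (16 * M ^ 2)).filter (fun n => c₁ * M ≤ SS M n a) ⊆ (range (16 * M ^ 2)).filter fun n => Odd n ∧
      c₁ / 16 * Real.sqrt ((16 * M ^ 2 : ℕ) : ℝ) ≤ (({q : Fin 4 → ℕ | nn q = n ∧ PP a q}.ncard : ℕ) : ℝ) := by
    intro n hn
    rw [mem_filter] at hn ⊢
    obtain ⟨h1, h2⟩ := hn
    have h3 : SS M n a = ((((QQ M).filter fun q => nn q = n ∧ PP a q).card : ℕ) : ℝ) := by
      unfold SS
      rw [Finset.card_filter, Finset.sum_filter]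
      push_cast
      refine Finset.sum_congr rfl fun q _ => ?_
      by_cases h4 : nn q = n
      · by_cases h5 : PP a q
        · rw [if_pos h4, if_pos ⟨h4, h5⟩, ind_one _ _ h5]
        · rw [if_pos h4, if_neg (fun h => h5 h.2), ind_zero _ _ h5]
      · rw [if_neg h4, if_neg (fun h => h4 h.1)]
    have hfinite : {q : Fin 4 → ℕ | nn q = n ∧ PP a q}.Finite := by
      refine Set.Finite.subset (Finset.finite_toSet (Fintype.piFinset fun _ : Fin 4 => range (n + 1))) ?_
      rintro q ⟨hq, -⟩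
      rw [Finset.mem_coe, Fintype.mem_piFinset]
      intro i
      rw [mem_range]
      unfold nn at hq
      have : q i ≤ q i ^ 2 := Nat.le_self_pow (by norm_num) _
      fin_cases i <;> simp at this ⊢ <;> omega
    have h4 : (((QQ M).filter fun q => nn q = n ∧ PP a q).card) ≤ {q : Fin 4 → ℕ | nn q = n ∧ PP a q}.ncard := by
      rw [← Set.ncard_coe_finset]
      refine Set.ncard_le_ncard ?_ hfinite
      intro q hq
      rw [Finset.mem_coe, mem_filter] at hq
      exact hq.2
    refine ⟨h1, ?_, ?_⟩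
    · have h5 : 0 < ((QQ M).filter fun q => nn q = n ∧ PP a q).card := by
        rw [h3] at h2
        have : 0 < c₁ * M := by positivity
        have h6 : (0 : ℝ) < ((((QQ M).filter fun q => nn q = n ∧ PP a q).card : ℕ) : ℝ) := lt_of_lt_of_le this h2
        exact_mod_cast h6
      obtain ⟨q, hq⟩ := Finset.card_pos.1 h5
      rw [mem_filter] at hq
      have h6 := hq.1
      unfold QQ at h6
      rw [mem_filter, hq.2.1] at h6
      exact h6.2
    · have e2 : Real.sqrt ((16 * M ^ 2 : ℕ) : ℝ) = 4 * M := by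
        have : ((16 * M ^ 2 : ℕ) : ℝ) = (4 * (M : ℝ)) ^ 2 := by
          push_cast
          ring
        rw [this, Real.sqrt_sq (by positivity)]
      rw [e2]
      calc c₁ / 16 * (4 * (M : ℝ)) ≤ c₁ * M := by nlinarith [mul_pos hc₁ hM0]
        _ ≤ SS M n a := h2
        _ ≤ _ := by
          rw [h3]
          exact_mod_cast h4
  have := Finset.card_le_card hsub
  exact_mod_cast this

end Pool.Agent.D0H11.GM
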