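import Mathlib

/-!
# Project GM (helper11): statements; Mathlib only. MP_1e1427_nt slot 4.

For almost every `(α, β) ∈ (0, ∞)²`, for infinitely many `N` at least `c N` odd `n ≤ N` have at least `c √N`
quadruples `n = x² + y² + z² + w²` for which `⌊α 2 ^ (x+y) + β 2 ^ (z+w)⌋ + 1` is prime.

Method. On every square `J` of parameters `(α, β)` a Paley-Zygmund argument (first moment from the prime number
theorem, second moment from Brun-Titchmarsh) gives the assertion for a set of parameters of measure at least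
`c₂ |J|`, with an absolute `c₂ > 0`; by Lebesgue's density theorem the limes superior has full measure.
-/

set_option autoImplicit false

namespace Pool.Agent.D0H11.GM

open Finset MeasureTheory Filter

/-- `n = x² + y² + z² + w²` -/
def nn (q : Fin 4 → ℕ) : ℕ := q 0 ^ 2 + q 1 ^ 2 + q 2 ^ 2 + q 3 ^ 2

/-- `x + y` -/
def uu (q : Fin 4 → ℕ) : ℕ := q 0 + q 1

/-- `z + w` -/
def vv (q : Fin 4 → ℕ) : ℕ := q 2 + q 3

/-- the quadruples: `M ≤ x, y, z, w < 2 M`, `n` odd; so `2 M ≤ uu q, vv q < 4 M` and `4 M² ≤ nn q < 16 M²` -/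
def QQ (M : ℕ) : Finset (Fin 4 → ℕ) := (Fintype.piFinset fun _ => Ico M (2 * M)).filter fun q => Odd (nn q)

/-- `α 2 ^ u + β 2 ^ v` -/
noncomputable def LL (a : ℝ × ℝ) (q : Fin 4 → ℕ) : ℝ := a.1 * 2 ^ uu q + a.2 * 2 ^ vv q

/-- `⌊α 2 ^ u + β 2 ^ v⌋ + 1` is prime -/
def PP (a : ℝ × ℝ) (q : Fin 4 → ℕ) : Prop := (⌊LL a q⌋₊ + 1).Prime

/-- the squares in the open quadrant: `closedBall c r` in `ℝ × ℝ` (maximum norm), `0 < r < c.1, c.2` -/
def Sq (c : ℝ × ℝ) (r : ℝ) : Prop := 0 < r ∧ r < c.1 ∧ r < c.2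

/-- 1. BTM (30 min): Brun-Titchmarsh for the measure.

Proof. `Pool.Agent.H902R3.…bt2 : Pool.Agent.H469R10.HO.BT2` (file `Pool/Agent/H902R3/Task469C.lean`, theorem `bt2`):
`#primes in (A, A + Y] ≤ (2 + ε) Y / log Y` for `Y ≥ Y₀`. The set is contained in the union of the `[p - 1, p)` with `p` prime,
`⌊y₁⌋ < p ≤ ⌊y₂⌋ + 1`, so its measure is at most the number of these primes (`ε = 1`, `Y = ⌊y₂⌋ + 1 - ⌊y₁⌋ ≤ y₂ - y₁ + 2`);
if `Y < Y₀` use that the measure is at most `y₂ - y₁`. -/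
def S_BTM : Prop := ∃ C : ℝ, 0 < C ∧ ∀ y₁ y₂ : ℝ, 0 ≤ y₁ → y₁ ≤ y₂ →
  volume {y : ℝ | y ∈ Set.Icc y₁ y₂ ∧ (⌊y⌋₊ + 1).Prime} ≤ ENNReal.ofReal (C * (y₂ - y₁ + 1) / Real.log (y₂ - y₁ + 2))

/-- 2. PU (uses 1, 60 min): two quadruples with different `u - v`.

Proof. By the symmetry `(α, u, u') ↔ (β, v, v')` let `u ≥ v` (`u = uu q`, `v = vv q`, `u' = uu q'`, `v' = vv q'`). The linear map
`Φ (α, β) = (α 2^u + β 2^v, β) = (L, β)` has determinant `2^u`, so the measure of the set `S` is `2^(-u)` times that of `Φ S`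
(`MeasureTheory.Measure.addHaar_image_linearMap`, or Fubini twice with the substitution in `α`). By Fubini the measure
of `Φ S` is the integral over the `L` with `⌊L⌋ + 1` prime, `L ∈ [A₁, A₂]`, `A₂ - A₁ = 2 r (2^u + 2^v) ≤ 4 r 2^u`, `A₁ > 0`, of the
measure of the `β` with `(L, β) ∈ Φ J` and `⌊L'⌋ + 1` prime, where `L' = α 2^u' + β 2^v' = 2^(u'-u) L + κ β`,
`κ = 2^v' - 2^(u'+v-u)`. As `v' ≠ u' + v - u`, `|κ| ≥ 2^(v'-1)`. The `β` with `(L, β) ∈ Φ J` form an interval of length `≤ 2 r`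
on which `L' > 0`; so by BTM (extend the interval of the `L'` to length exactly `2 r |κ|` to the right) the measure
is at most `|κ|⁻¹ C (2 r |κ| + 1) / log (2 r |κ| + 2) ≤ C' r / M` for large `M` (`v' ≥ 2 M`, so `log (2 r |κ|) ≥ M / 2`). The outer
integral is at most `C (4 r 2^u + 1) / log (4 r 2^u + 2) ≤ C' r 2^u / M`. -/
def S_PU : Prop := ∃ C : ℝ, 0 < C ∧ ∀ (c : ℝ × ℝ) (r : ℝ), Sq c r → ∀ᶠ M : ℕ in atTop, ∀ q ∈ QQ M, ∀ q' ∈ QQ M,
  uu q + vv q' ≠ uu q' + vv q →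
    volume {a : ℝ × ℝ | a ∈ Metric.closedBall c r ∧ PP a q ∧ PP a q'} ≤ ENNReal.ofReal (C * r ^ 2 / (M : ℝ) ^ 2)

/-- 3. SU (uses 1, 60 min): two quadruples with the same `u - v`, `u' = u + k`, `v' = v + k`; and one quadruple.

Proof. Let `u ≥ v` (symmetry). For fixed `β` substitute `L = α 2^u + β 2^v`: the slice has measure `2^(-u)` times that of the
`L ∈ [B₁, B₂]`, `B₂ - B₁ = 2 r 2^u`, `B₁ > 0`, with `⌊L⌋ + 1 = p` prime and, as `L' = 2^k L`, `⌊2^k L⌋ + 1` prime. For one `p` the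
measure of the `L ∈ [p - 1, p)` with `⌊2^k L⌋ + 1` prime is at most `2^(-k) C (2^k + 1) / log (2^k + 2) ≤ C' / k` by BTM; the
number of the primes `p` is at most the measure in BTM for `[B₁ - 1, B₂ + 1]` (each `[p - 1, p)` is contained in it;
`B₁ ≥ 1` for large `M`), `≤ C' r 2^u / M` for large `M`. So the slice has measure `≤ C' r / (M k)`, and `β` is in an interval of
length `2 r`. The second statement is the same without the second condition. -/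
def S_SU : Prop := ∃ C : ℝ, 0 < C ∧ ∀ (c : ℝ × ℝ) (r : ℝ), Sq c r → ∀ᶠ M : ℕ in atTop, ∀ q ∈ QQ M, ∀ q' ∈ QQ M,
  (∀ k : ℕ, 1 ≤ k → uu q' = uu q + k → vv q' = vv q + k →
    volume {a : ℝ × ℝ | a ∈ Metric.closedBall c r ∧ PP a q ∧ PP a q'} ≤ ENNReal.ofReal (C * r ^ 2 / (M * k))) ∧
  volume {a : ℝ × ℝ | a ∈ Metric.closedBall c r ∧ PP a q} ≤ ENNReal.ofReal (C * r ^ 2 / M)

/-- 4. ONE (45 min): the lower bound for one quadruple.

Proof. Let `u ≥ v`. For fixed `β`, with `L = α 2^u + β 2^v` as in SU: the measure of the slice is at least `2^(-u)` times the number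
of the primes `p ∈ [B₁ + 1, B₂]`, and `B₂ - B₁ = 2 r 2^u`, `B₂ ≤ (c.1 + c.2 + 2 r) 2^u`; by the prime number theorem (mean value
one of `log p`: `Pool.Agent.D0H91.UB.wp0 : Mean1 (WP 0)` in `Pool/Agent/D0H91/UB/Ipw.lean`, or any PNT of the library) it is
at least `(1/2) (B₂ - B₁) / log B₂ ≥ r 2^u / (4 M)` for large `M` (as `u ≤ 4 M`). The length of the `β` is `2 r`. -/
def S_ONE : Prop := ∃ c₀ : ℝ, 0 < c₀ ∧ ∀ (c : ℝ × ℝ) (r : ℝ), Sq c r → ∀ᶠ M : ℕ in atTop, ∀ q ∈ QQ M,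
  ENNReal.ofReal (c₀ * r ^ 2 / M) ≤ volume {a : ℝ × ℝ | a ∈ Metric.closedBall c r ∧ PP a q}

open Classical in
/-- 5. CNT (60 min): the numbers of the quadruples and of the pairs.

Proof. (i) For every `x`, `y`, `z` at least `⌊M/2⌋` of the `w` make `n` odd. (ii) The second moment of the number of all
representations: `Pool.Agent.D0H87.TW.t_R4 : S_R4` (`Pool/Agent/D0H87/TW/R4.lean`: `∑_{n ≤ N} (reps n).card² ≤ C N³`; `reps n` in
`Pool.Agent.W65.FS`), with `N = 16 M²` and the injection `q ↦ (q i : ℤ)`. (iii) With `s = x - y`, `t = z - w` (integers)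
`2 nn q = u² + s² + v² + t²`. Let `u' = u + j`, `v' = v + j` with `j ∈ (-κ, κ)`: at most `4 M · 4 M · 2 κ` triples `(u, v, j)`, and for
each of them `s² - s'² + t² - t'² = e` is given, `|s|, … ≤ 2 M`: at most `C (2 M)² log^E (2 M)` by
`Pool.Agent.D0H21.GF.t_SQ4 Pool.Agent.D0H21.GF.t_ABCD : S_SQ4` (files `D0H21/GF/Sq4.lean`, `Abcd.lean`; statement in
`D0H11/GF/Stm.lean`). `(u, v, j, s, s', t, t')` determines the pair. -/
def S_CNT : Prop := ∃ (C : ℝ) (E : ℕ), 0 < C ∧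
  (∀ M : ℕ, 2 ≤ M → (M : ℝ) ^ 4 / 4 ≤ ((QQ M).card : ℝ)) ∧
  (∀ M : ℕ, 2 ≤ M → ((((QQ M ×ˢ QQ M).filter fun p => nn p.1 = nn p.2).card : ℕ) : ℝ) ≤ C * (M : ℝ) ^ 6) ∧
  (∀ M κ : ℕ, 2 ≤ M → 1 ≤ κ → ((((QQ M ×ˢ QQ M).filter fun p => nn p.1 = nn p.2 ∧
      uu p.1 + vv p.2 = uu p.2 + vv p.1 ∧ uu p.2 < uu p.1 + κ ∧ uu p.1 < uu p.2 + κ).card : ℕ) : ℝ) ≤
    C * κ * (M : ℝ) ^ 4 * Real.log M ^ E)

open Classical in
/-- 6. MOM (40 min): Paley-Zygmund for many functions.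

Proof. Put `T = ∑ S n`, `X = ∑ S n ²`, `V` the measure of `J`; `T² ≤ 16 M² X`, so `∫ T² ≤ 16 C M⁶ V`. Let `Λ = (32 C / c)²` and `G` the set of the
`a ∈ J` with `T a ≥ (c/2) M³` and `X a ≤ Λ M⁴`. Then `c M³ V ≤ ∫ T ≤ (c/2) M³ V + ∫_{X > Λ M⁴} 4 M √X + ∫_G T`; on `X > Λ M⁴`,
`√X ≤ X / (√Λ M²)`, so the second integral is at most `4 C M³ V / √Λ = (c/8) M³ V`; by Cauchy-Schwarz
`∫_G T ≤ √|G| √(16 C M⁶ V)`. So `|G| ≥ c₂ V`, `c₂ = c² / (16 · 16 C)` (for example). On `G`, with `θ = c / 64`: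
`(c/2) M³ ≤ T ≤ 16 M² θ M + √# √X`, `#` the number of the `n` with `S n a ≥ θ M`, so `√# ≥ (c/4) M³ / (√Λ M²)`, `# ≥ (c/4)² M² / Λ`.
`c₁` is the minimum of the constants. -/
def S_MOM : Prop := ∀ c C : ℝ, 0 < c → 0 < C → ∃ c₁ : ℝ, 0 < c₁ ∧ ∀ (M : ℕ) (J : Set (ℝ × ℝ)) (S : ℕ → ℝ × ℝ → ℝ) (B : ℝ),
  1 ≤ M → MeasurableSet J → volume J ≠ ⊤ → (∀ n, Measurable (S n)) → (∀ n a, 0 ≤ S n a ∧ S n a ≤ B) →
  c * (M : ℝ) ^ 3 * (volume J).toReal ≤ ∫ a in J, ∑ n ∈ range (16 * M ^ 2), S n a →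
  ∫ a in J, ∑ n ∈ range (16 * M ^ 2), S n a ^ 2 ≤ C * (M : ℝ) ^ 4 * (volume J).toReal →
  c₁ * (volume J).toReal ≤ (volume {a : ℝ × ℝ | a ∈ J ∧ c₁ * (M : ℝ) ^ 2 ≤
    ((((range (16 * M ^ 2)).filter fun n => c₁ * M ≤ S n a).card : ℕ) : ℝ)}).toReal

/-- 7. DENS (40 min): limes superior and Lebesgue's density theorem.

Proof. Let `U` be the open quadrant and `D` the set of the `a ∈ U` which are in only finitely many `G M`; `D` is the union of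
the increasing sets `D k = U ∩ ⋂_{M ≥ k} (G M)ᶜ`. For every square `J = closedBall c r` in `U` and all `k`:
`|D k ∩ J| ≤ |J \ G M| ≤ (1 - c₂) |J|` for large `M ≥ k`. By the density theorem (`Besicovitch.ae_tendsto_measure_inter_div` or
`IsUnifLocDoublingMeasure.ae_tendsto_measure_inter_div`) almost every point `a` of `D k` has
`|D k ∩ closedBall a r| / |closedBall a r| → 1` as `r → 0+`, and for small `r` the ball is in `U`. So `|D k| = 0`. -/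
def S_DENS : Prop := ∀ (G : ℕ → Set (ℝ × ℝ)) (c₂ : ℝ), 0 < c₂ → (∀ M, MeasurableSet (G M)) →
  (∀ (c : ℝ × ℝ) (r : ℝ), Sq c r → ∀ᶠ M : ℕ in atTop,
    ENNReal.ofReal c₂ * volume (Metric.closedBall c r) ≤ volume (G M ∩ Metric.closedBall c r)) →
  ∀ᵐ a : ℝ × ℝ, 0 < a.1 → 0 < a.2 → ∃ᶠ M : ℕ in atTop, a ∈ G M

end Pool.Agent.D0H11.GM
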